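import Pool.Agent.VLF.Stmts
import Pool.Agent.Helper40_ZOL.Kit
import Pool.Agent.Helper25_ZOL.Fant

/-!
# VLF, row CUB
-/

set_option autoImplicit false

namespace Pool.Agent.VLF.H62

open Pool.Agent.ZOL Finset

theorem cub : CubStmt := by
  intro q d v hv w hw hp A hA
  by_cases hAw : A ⊆ labels w
  · have h1 : alt A w ∈ F (d + 1) := H25.fant_le hA (H25.alt_mem hw hp hAw)
    have h2 := hv _ h1
    unfold alt at h2
    rw [map_sum] at h2
    rw [← h2]
    refine Finset.sum_congr rfl fun B _ => ?_
    rw [map_zsmul]
  · obtain ⟨c, hc, hcw⟩ := Finset.not_subset.1 hAw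
    rw [← Finset.insert_erase hc, Finset.sum_powerset_insert (Finset.notMem_erase c A),
      ← Finset.sum_add_distrib]
    refine Finset.sum_eq_zero fun B hB => ?_
    have hcB : c ∉ B := fun h => Finset.notMem_erase c A (Finset.mem_powerset.1 hB h)
    rw [Finset.card_insert_of_notMem hcB]
    have h3 : flip (insert c B) w = flip B w :=
      flip_congr (by rw [Finset.insert_inter_of_notMem hcw])
    rw [h3, pow_succ]
    simp

end Pool.Agent.VLF.H62
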